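import Pool.Agent.W295.PR.Stm

/-!
# Project PR, part LT5
-/

set_option autoImplicit false

namespace Pool.Agent.W540.PR.LT5

open Pool.Agent.W295.PR

/-- the quotient map -/
abbrev pq (G : Type) [Group G] (j : ℕ) : G →* G ⧸ lcs G j := QuotientGroup.mk' (lcs G j)

theorem pq_eq_one {G : Type} [Group G] {j : ℕ} {x : G} : pq G j x = 1 ↔ x ∈ lcs G j := by
  rw [QuotientGroup.mk'_apply, QuotientGroup.eq_one_iff]

section

variable {G : Type} [Group G] [TopologicalSpace G] [IsTopologicalGroup G] {N : Nil G} {D : ℕ}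
  {lam : (RR D → G) → Circle}

theorem gpp_mem (e : ℤ) {u x v : G} (hu : u ∈ N.G0) (hx : x ∈ N.G0) (hv : v ∈ N.G0) :
    gpp N D e u x v ∈ PP N D :=
  Subgroup.subset_closure ⟨e, u, x, v, hu, hx, hv, rfl⟩

theorem lam_one (hl : Lam N D lam) : lam 1 = 1 := by
  have h := hl.mul 1 (one_mem _) 1 (one_mem _)
  rw [one_mul] at h
  exact (left_eq_mul.1 h)

theorem lam_inv (hl : Lam N D lam) {f : RR D → G} (hf : f ∈ PP N D) : lam f⁻¹ = (lam f)⁻¹ := by
  have h := hl.mul f hf f⁻¹ (inv_mem hf)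
  rw [mul_inv_cancel, lam_one hl] at h
  exact eq_inv_of_mul_eq_one_right h.symm

variable {k M : ℕ}

/-- hypothesis on the next level -/
def HM (N : Nil G) (D : ℕ) (lam : (RR D → G) → Circle) (k M : ℕ) : Prop :=
  ∀ f ∈ PP N D, (∀ q, f q ∈ lcs G (k + 2)) → lam f ^ M = 1

theorem wd (hl : Lam N D lam) (hM : HM N D lam k M) {f g : RR D → G} (hf : f ∈ PP N D)
    (hg : g ∈ PP N D) (h : ∀ q, pq G (k + 2) (f q) = pq G (k + 2) (g q)) :
    lam f ^ M = lam g ^ M := by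
  have h1 := hM (f * g⁻¹) (mul_mem hf (inv_mem hg)) (fun q => by
    rw [← pq_eq_one, Pi.mul_apply, Pi.inv_apply, map_mul, map_inv, h, mul_inv_cancel])
  rw [hl.mul f hf g⁻¹ (inv_mem hg), lam_inv hl hg, mul_pow, inv_pow] at h1
  exact mul_inv_eq_one.1 h1

theorem comm_mem (h6 : S_LCS) {j : ℕ} {x : G} (hx : x ∈ lcs G j) (y : G) :
    x * y * x⁻¹ * y⁻¹ ∈ lcs G (j + 1) := by
  have := h6 G j 0 x hx y (by rw [lcs, Subgroup.lowerCentralSeries_zero]; trivial)
  simpa using this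

theorem commute_pq (h6 : S_LCS) {z : G} (hz : z ∈ lcs G (k + 1)) (g : G) :
    Commute (pq G (k + 2) z) (pq G (k + 2) g) := by
  have h1 := comm_mem h6 hz g
  rw [← pq_eq_one] at h1
  rw [map_mul, map_mul, map_mul, map_inv, map_inv] at h1
  have h2 := mul_inv_eq_one.1 h1
  exact (mul_inv_eq_iff_eq_mul.1 h2)

/-- the function `χ` -/
noncomputable def ch (N : Nil G) (D : ℕ) (lam : (RR D → G) → Circle) (M : ℕ) (z : G) : Circle :=
  lam (gpp N D 1 z 1 1) ^ M

theorem gpp_z (h6 : S_LCS) {z : G} (hz : z ∈ lcs G (k + 1)) (q : RR D) :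
    pq G (k + 2) (gpp N D 1 z 1 1 q) = (pq G (k + 2) z) ^ (ev D 1 q) := by
  have hc := commute_pq h6 hz N.a
  unfold gpp
  rw [one_mul, mul_one, map_mul, map_inv, map_zpow, map_zpow, map_mul, hc.mul_zpow,
    mul_inv_cancel_right]

theorem ch_eq (h6 : S_LCS) (hl : Lam N D lam) (hM : HM N D lam k M)
    (hle : lcs G (k + 1) ≤ N.G0) {z : G} (hz : z ∈ lcs G (k + 1)) {F : RR D → G}
    (hF : F ∈ PP N D) (h : ∀ q, pq G (k + 2) (F q) = (pq G (k + 2) z) ^ (ev D 1 q)) :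
    ch N D lam M z = lam F ^ M := by
  unfold ch
  exact wd hl hM (gpp_mem 1 (hle hz) (one_mem _) (one_mem _)) hF fun q => by
    rw [gpp_z h6 hz, h]

theorem ch_mul (h6 : S_LCS) (hl : Lam N D lam) (hM : HM N D lam k M)
    (hle : lcs G (k + 1) ≤ N.G0) {z z' : G} (hz : z ∈ lcs G (k + 1)) (hz' : z' ∈ lcs G (k + 1)) :
    ch N D lam M (z * z') = ch N D lam M z * ch N D lam M z' := by
  have h1 := gpp_mem (N := N) (D := D) 1 (hle hz) (one_mem _) (one_mem _)
  have h2 := gpp_mem (N := N) (D := D) 1 (hle hz') (one_mem _) (one_mem _)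
  rw [ch_eq h6 hl hM hle (mul_mem hz hz') (mul_mem h1 h2)]
  · rw [hl.mul _ h1 _ h2, mul_pow]
    rfl
  · intro q
    have hc := commute_pq h6 hz z'
    rw [Pi.mul_apply, map_mul, gpp_z h6 hz, gpp_z h6 hz', map_mul, hc.mul_zpow]

theorem ch_K (h6 : S_LCS) (hl : Lam N D lam) (hM : HM N D lam k M)
    (hle : lcs G (k + 1) ≤ N.G0) {z : G} (hz : z ∈ lcs G (k + 2)) : ch N D lam M z = 1 := by
  have hz1 : z ∈ lcs G (k + 1) :=
    (⊤ : Subgroup G).lowerCentralSeries_antitone (Nat.le_succ (k + 1)) hz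
  rw [ch_eq h6 hl hM hle hz1 (one_mem (PP N D)), lam_one hl, one_pow]
  intro q
  rw [pq_eq_one.2 hz, one_zpow, Pi.one_apply, map_one]

theorem ch_one (h6 : S_LCS) (hl : Lam N D lam) (hM : HM N D lam k M)
    (hle : lcs G (k + 1) ≤ N.G0) : ch N D lam M 1 = 1 :=
  ch_K h6 hl hM hle (one_mem _)

theorem ch_inv (h6 : S_LCS) (hl : Lam N D lam) (hM : HM N D lam k M)
    (hle : lcs G (k + 1) ≤ N.G0) {z : G} (hz : z ∈ lcs G (k + 1)) :
    ch N D lam M z⁻¹ = (ch N D lam M z)⁻¹ := by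
  have h := ch_mul h6 hl hM hle hz (inv_mem hz)
  rw [mul_inv_cancel, ch_one h6 hl hM hle] at h
  exact eq_inv_of_mul_eq_one_right h.symm

/-- commutators -/
def cm (u x : G) : G := u * x * u⁻¹ * x⁻¹

theorem cm_mem (h6 : S_LCS) {u : G} (hu : u ∈ lcs G k) (x : G) : cm u x ∈ lcs G (k + 1) :=
  comm_mem h6 hu x

theorem cm_mul_right (h6 : S_LCS) (hl : Lam N D lam) (hM : HM N D lam k M)
    (hle : lcs G (k + 1) ≤ N.G0) {u : G} (hu : u ∈ lcs G k) (x y : G) :
    ch N D lam M (cm u (x * y)) = ch N D lam M (cm u x) * ch N D lam M (cm u y) := by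
  have e : cm u (x * y) = cm u x * ((cm u y) * (cm (cm u y)⁻¹ x)) := by
    unfold cm
    group
  have h1 := cm_mem h6 hu y
  have h2 : cm (cm u y)⁻¹ x ∈ lcs G (k + 2) := comm_mem h6 (inv_mem h1) x
  have h3 : cm (cm u y)⁻¹ x ∈ lcs G (k + 1) :=
    (⊤ : Subgroup G).lowerCentralSeries_antitone (Nat.le_succ (k + 1)) h2
  rw [e, ch_mul h6 hl hM hle (cm_mem h6 hu x) (mul_mem h1 h3), ch_mul h6 hl hM hle h1 h3,
    ch_K h6 hl hM hle h2, mul_one]

theorem cm_mul_left (h6 : S_LCS) (hl : Lam N D lam) (hM : HM N D lam k M)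
    (hle : lcs G (k + 1) ≤ N.G0) {u u' : G} (hu : u ∈ lcs G k) (hu' : u' ∈ lcs G k) (x : G) :
    ch N D lam M (cm (u * u') x) = ch N D lam M (cm u x) * ch N D lam M (cm u' x) := by
  have e : cm (u * u') x = (cm u' x * cm (cm u' x)⁻¹ u) * cm u x := by
    unfold cm
    group
  have h1 := cm_mem h6 hu' x
  have h2 : cm (cm u' x)⁻¹ u ∈ lcs G (k + 2) := comm_mem h6 (inv_mem h1) u
  have h3 : cm (cm u' x)⁻¹ u ∈ lcs G (k + 1) :=
    (⊤ : Subgroup G).lowerCentralSeries_antitone (Nat.le_succ (k + 1)) h2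
  rw [e, ch_mul h6 hl hM hle (mul_mem h1 h3) (cm_mem h6 hu x), ch_mul h6 hl hM hle h1 h3,
    ch_K h6 hl hM hle h2, mul_one, mul_comm]

/-- the basic relation -/
theorem ch_basic (h1 : S_LT1) (h6 : S_LCS) (h7 : S_EV) (hl : Lam N D lam) (hM : HM N D lam k M)
    (hle : lcs G (k + 1) ≤ N.G0) {u x : G} (hu : u ∈ lcs G k) (hu0 : u ∈ N.G0) (hx : x ∈ N.G0) :
    ch N D lam M (cm u (x * N.a)) = 1 := by
  have hF1 := gpp_mem (N := N) (D := D) 0 (one_mem _) hu0 (one_mem _)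
  have hF2 := gpp_mem (N := N) (D := D) 1 hx (inv_mem hu0) hx
  have hc := cm_mem h6 hu (x * N.a)
  rw [ch_eq h6 hl hM hle hc (mul_mem hF1 hF2), hl.mul _ hF1 _ hF2,
    h1 G N D lam hl 0 1 (one_mem _) u hu0, h1 G N D lam hl 1 x hx u⁻¹ (inv_mem hu0), one_mul,
    one_pow]
  intro q
  have hev : ev D 0 q = 0 := (h7 D 0 0 q q).2.2.2.2.2.2.2
  set b := x * N.a with hb
  set n := ev D 1 q with hn
  have e1 : (gpp N D 0 1 u 1 * gpp N D 1 x u⁻¹ x) q = u * b ^ n * u⁻¹ * (b ^ n)⁻¹ := by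
    rw [Pi.mul_apply]
    unfold gpp
    rw [hev, zpow_zero, one_mul, inv_one, mul_one, ← hb, ← hn]
    group
  have e2 : u * b ^ n * u⁻¹ = (cm u b * b) ^ n := by
    have : cm u b * b = u * b * u⁻¹ := by unfold cm; group
    rw [this, conj_zpow]
  have e3 := commute_pq h6 hc b
  rw [e1, e2, map_mul, map_inv, map_zpow, map_zpow, map_mul, e3.mul_zpow, mul_inv_cancel_right]

/-- triviality on all commutators with an element of `G0` -/
theorem ch_G0 (h1 : S_LT1) (h6 : S_LCS) (h7 : S_EV) (hl : Lam N D lam) (hM : HM N D lam k M)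
    (hle : lcs G (k + 1) ≤ N.G0) {u : G} (hu : u ∈ lcs G k) (hu0 : u ∈ N.G0) (g : G) :
    ch N D lam M (cm u g) = 1 := by
  let Su : Subgroup G :=
    { carrier := {g | ch N D lam M (cm u g) = 1}
      mul_mem' := by
        intro x y hx hy
        show ch N D lam M (cm u (x * y)) = 1
        rw [cm_mul_right h6 hl hM hle hu]
        have hx' : ch N D lam M (cm u x) = 1 := hx
        have hy' : ch N D lam M (cm u y) = 1 := hy
        rw [hx', hy', one_mul]
      one_mem' := by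
        show ch N D lam M (cm u 1) = 1
        have : cm u 1 = 1 := by unfold cm; group
        rw [this, ch_one h6 hl hM hle]
      inv_mem' := by
        intro x hx
        show ch N D lam M (cm u x⁻¹) = 1
        have hx' : ch N D lam M (cm u x) = 1 := hx
        have h2 := cm_mul_right h6 hl hM hle hu x x⁻¹
        rw [mul_inv_cancel, hx', one_mul] at h2
        rw [← h2]
        have : cm u 1 = 1 := by unfold cm; group
        rw [this, ch_one h6 hl hM hle] }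
  have ha : N.a ∈ Su := by
    have h2 := ch_basic h1 h6 h7 hl hM hle hu hu0 (one_mem N.G0)
    rw [one_mul] at h2
    exact h2
  have hG0 : ∀ x ∈ N.G0, x ∈ Su := by
    intro x hx
    have h2 : x * N.a ∈ Su := ch_basic h1 h6 h7 hl hM hle hu hu0 hx
    exact (Su.mul_mem_cancel_right ha).1 h2
  obtain ⟨j, x, hx, rfl⟩ := N.gen g
  exact Su.mul_mem (hG0 x hx) (Su.zpow_mem ha j)

/-- triviality on all commutators -/
theorem ch_all (h1 : S_LT1) (h6 : S_LCS) (h7 : S_EV) (hl : Lam N D lam) (hM : HM N D lam k M)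
    (hle : lcs G 1 ≤ N.G0) {u : G} (hu : u ∈ lcs G k) (g : G) :
    ch N D lam M (cm u g) = 1 := by
  have hle' : lcs G (k + 1) ≤ N.G0 :=
    ((⊤ : Subgroup G).lowerCentralSeries_antitone (Nat.succ_le_succ (Nat.zero_le k))).trans hle
  rcases Nat.eq_zero_or_pos k with rfl | hk
  · -- the case `i = 1`
    have htop : ∀ x : G, x ∈ lcs G 0 := fun x => by
      rw [lcs, Subgroup.lowerCentralSeries_zero]; trivial
    have hinv : ∀ x y : G, cm x y = (cm y x)⁻¹ := fun x y => by unfold cm; group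
    have hsw : ∀ x y : G, ch N D lam M (cm y x) = 1 → ch N D lam M (cm x y) = 1 := by
      intro x y h
      rw [hinv x y, ch_inv h6 hl hM hle' (cm_mem h6 (htop y) x), h, inv_one]
    have haa : ch N D lam M (cm N.a N.a) = 1 := by
      have : cm N.a N.a = 1 := by unfold cm; group
      rw [this, ch_one h6 hl hM hle']
    -- `g = x a^j`
    have ha : ∀ y : G, ch N D lam M (cm N.a y) = 1 := by
      intro y
      obtain ⟨j, x, hx, rfl⟩ := N.gen y
      rw [cm_mul_right h6 hl hM hle' (htop _), hsw _ _ (ch_G0 h1 h6 h7 hl hM hle' (htop x) hx N.a),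
        one_mul]
      have : cm N.a (N.a ^ j) = 1 := by
        unfold cm
        group
      rw [this, ch_one h6 hl hM hle']
    obtain ⟨j, x, hx, rfl⟩ := N.gen u
    rw [cm_mul_left h6 hl hM hle' (htop _) (htop _), ch_G0 h1 h6 h7 hl hM hle' (htop x) hx g, one_mul]
    -- powers of `a`
    apply hsw
    have hpow : ∀ (n : ℕ), ch N D lam M (cm g (N.a ^ n)) = 1 := by
      intro n
      induction n with
      | zero =>
        have : cm g (N.a ^ 0) = 1 := by unfold cm; group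
        rw [this, ch_one h6 hl hM hle']
      | succ n ih =>
        rw [pow_succ, cm_mul_right h6 hl hM hle' (htop _), ih, one_mul]
        exact hsw _ _ (ha g)
    have hneg : ∀ y : G, ch N D lam M (cm g y) = 1 → ch N D lam M (cm g y⁻¹) = 1 := by
      intro y hy
      have h2 := cm_mul_right h6 hl hM hle' (htop g) y y⁻¹
      rw [mul_inv_cancel, hy, one_mul] at h2
      rw [← h2]
      have : cm g 1 = 1 := by unfold cm; group
      rw [this, ch_one h6 hl hM hle']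
    rcases Int.eq_nat_or_neg j with ⟨n, rfl | rfl⟩
    · rw [zpow_natCast]
      exact hpow n
    · rw [zpow_neg, zpow_natCast]
      exact hneg _ (hpow n)
  · exact ch_G0 h1 h6 h7 hl hM hle' hu
      (hle ((⊤ : Subgroup G).lowerCentralSeries_antitone hk hu)) g

theorem ch_triv (h1 : S_LT1) (h6 : S_LCS) (h7 : S_EV) (hl : Lam N D lam) (hM : HM N D lam k M)
    (hle : lcs G 1 ≤ N.G0) {z : G} (hz : z ∈ lcs G (k + 1)) : ch N D lam M z = 1 := by
  have hle' : lcs G (k + 1) ≤ N.G0 :=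
    ((⊤ : Subgroup G).lowerCentralSeries_antitone (Nat.succ_le_succ (Nat.zero_le k))).trans hle
  have key : ∀ z ∈ lcs G (k + 1), z ∈ lcs G (k + 1) ∧ ch N D lam M z = 1 := by
    intro z hz
    rw [lcs, Subgroup.lowerCentralSeries_succ, Subgroup.commutator_def] at hz
    refine Subgroup.closure_induction ?_ ?_ ?_ ?_ hz
    · rintro x ⟨u, hu, g, _, rfl⟩
      exact ⟨cm_mem h6 hu g, ch_all h1 h6 h7 hl hM hle hu g⟩
    · exact ⟨one_mem _, ch_one h6 hl hM hle'⟩
    · rintro x y _ _ ⟨hx, hx'⟩ ⟨hy, hy'⟩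
      exact ⟨mul_mem hx hy, by rw [ch_mul h6 hl hM hle' hx hy, hx', hy', one_mul]⟩
    · rintro x _ ⟨hx, hx'⟩
      exact ⟨inv_mem hx, by rw [ch_inv h6 hl hM hle' hx, hx', inv_one]⟩
  exact (key z hz).2

/-- the commutator subgroup is contained in `G0` -/
theorem lcs_one_le : lcs G 1 ≤ N.G0 := by
  have hn := N.normal
  have hz : ∀ j : ℤ, ∀ i : ℤ, ∀ x ∈ N.G0, ∀ y ∈ N.G0,
      x * N.a ^ i * (y * N.a ^ j) * (x * N.a ^ i)⁻¹ * (y * N.a ^ j)⁻¹ ∈ N.G0 := by
    intro j i x hx y hy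
    have e : ∀ g : G, (QuotientGroup.mk' N.G0 g = 1 ↔ g ∈ N.G0) := fun g => by
      rw [QuotientGroup.mk'_apply, QuotientGroup.eq_one_iff]
    rw [← e, map_mul, map_mul, map_mul, map_inv, map_inv, map_mul, map_mul, (e x).2 hx,
      (e y).2 hy, one_mul, one_mul, map_zpow, map_zpow]
    group
  rw [lcs, Subgroup.lowerCentralSeries_succ, Subgroup.commutator_le]
  intro g _ h _
  obtain ⟨i, x, hx, rfl⟩ := N.gen g
  obtain ⟨j, y, hy, rfl⟩ := N.gen h
  exact hz j i x hx y hy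

end

/-- bounded degree -/
theorem pdeg_of {G : Type} [Group G] {D k : ℕ} {V : Type} [CommGroup V]
    (ι : V →* G ⧸ lcs G (k + 2)) (hι : Function.Injective ι) :
    ∀ (n l : ℕ) (f : RR D → G) (F : RR D → V), k + 2 ≤ l + n →
      (∀ q, ι (F q) = pq G (k + 2) (f q)) → IsPoly (RF1 (RR D)) (lcsF G 1) (n + 1) l f →
      PDeg n F := by
  intro n
  induction n with
  | zero =>
    intro l f F hl hF hp h x
    have h1 := (hp.2 1 le_rfl h (by simp [RF1])) x
    have h2 : dd h f x ∈ lcs G (k + 2) := by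
      refine (⊤ : Subgroup G).lowerCentralSeries_antitone ?_ h1
      rw [Nat.div_one]
      omega
    unfold dd at h2
    rw [← pq_eq_one, map_mul, map_inv] at h2
    apply hι
    rw [hF, hF]
    exact mul_inv_eq_one.1 h2
  | succ n ih =>
    intro l f F hl hF hp h
    have h1 := hp.2 1 le_rfl h (by simp [RF1])
    refine ih (l + 1) (dd h f) _ (by omega) ?_ h1
    intro q
    unfold dd
    rw [map_mul, map_inv, hF, hF, map_mul, map_inv]

theorem core (h1 : S_LT1) (h2 : S_LT3) (h3 : S_TOR) (h4 : S_PPn) (h5 : S_PPbp) (h6 : S_LCS)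
    (h7 : S_EV) {G : Type} [Group G] [TopologicalSpace G] [IsTopologicalGroup G] {N : Nil G}
    {D : ℕ} {lam : (RR D → G) → Circle} (hl : Lam N D lam) {k M0 : ℕ} (hM0 : 0 < M0)
    (hM : HM N D lam k M0) {V : Type} [CommGroup V] (ι : V →* G ⧸ lcs G (k + 2))
    (hι : Function.Injective ι)
    (hcen : ∀ z ∈ lcs G (k + 1), ∃ v : V, ι v = pq G (k + 2) z) :
    ∃ M1 : ℕ, 0 < M1 ∧ ∀ f ∈ PP N D, (∀ q, f q ∈ lcs G (k + 1)) → lam f ^ M1 = 1 := by
  classical
  have hle := lcs_one_le (N := N)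
  obtain ⟨M1, hM1, hT⟩ := h3 D (k + 2)
  refine ⟨M0 * M1, Nat.mul_pos hM0 hM1, ?_⟩
  let Im : Subgroup (G ⧸ lcs G (k + 2)) := (lcs G (k + 1)).map (pq G (k + 2))
  let V0 : Subgroup V := Im.comap ι
  let VV : Subgroup (RR D → V) :=
    { carrier := {F | ∃ f ∈ PP N D, (∀ q, f q ∈ lcs G (k + 1)) ∧ ∀ q, ι (F q) = pq G (k + 2) (f q)}
      mul_mem' := by
        rintro F F' ⟨f, hf, hf1, hf2⟩ ⟨f', hf', hf1', hf2'⟩
        refine ⟨f * f', mul_mem hf hf', fun q => mul_mem (hf1 q) (hf1' q), fun q => ?_⟩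
        rw [Pi.mul_apply, Pi.mul_apply, map_mul, map_mul, hf2, hf2']
      one_mem' := ⟨1, one_mem _, fun q => one_mem _, fun q => by
        rw [Pi.one_apply, Pi.one_apply, map_one, map_one]⟩
      inv_mem' := by
        rintro F ⟨f, hf, hf1, hf2⟩
        refine ⟨f⁻¹, inv_mem hf, fun q => inv_mem (hf1 q), fun q => ?_⟩
        rw [Pi.inv_apply, Pi.inv_apply, map_inv, map_inv, hf2] }
  let μ : (RR D → V) → Circle := fun F =>
    if h : ∃ f ∈ PP N D, (∀ q, f q ∈ lcs G (k + 1)) ∧ ∀ q, ι (F q) = pq G (k + 2) (f q) then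
      lam h.choose ^ M0 else 1
  have hμ : ∀ (F : RR D → V) (f : RR D → G), f ∈ PP N D → (∀ q, f q ∈ lcs G (k + 1)) →
      (∀ q, ι (F q) = pq G (k + 2) (f q)) → μ F = lam f ^ M0 := by
    intro F f hf hf1 hf2
    have hex : ∃ f ∈ PP N D, (∀ q, f q ∈ lcs G (k + 1)) ∧ ∀ q, ι (F q) = pq G (k + 2) (f q) :=
      ⟨f, hf, hf1, hf2⟩
    have e : μ F = lam hex.choose ^ M0 := dif_pos hex
    rw [e]
    obtain ⟨c1, c2, c3⟩ := hex.choose_spec
    exact wd hl hM c1 hf fun q => by rw [← c3, hf2]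
  have key := hT V Circle VV V0 μ ?_ ?_ ?_ ?_ ?_
  · intro f hf hf1
    choose w hw using hcen
    let F : RR D → V := fun q => w (f q) (hf1 q)
    have hF : ∀ q, ι (F q) = pq G (k + 2) (f q) := fun q => hw _ _
    have h8 := key F ⟨f, hf, hf1, hF⟩
    rw [hμ F f hf hf1 hF, ← pow_mul] at h8
    exact h8
  · rintro F ⟨f, hf, hf1, hf2⟩ F' ⟨f', hf', hf1', hf2'⟩
    rw [hμ F f hf hf1 hf2, hμ F' f' hf' hf1' hf2',
      hμ (F * F') (f * f') (mul_mem hf hf') (fun q => mul_mem (hf1 q) (hf1' q)) (fun q => by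
        rw [Pi.mul_apply, Pi.mul_apply, map_mul, map_mul, hf2, hf2']), hl.mul f hf f' hf', mul_pow]
  · rintro F ⟨f, hf, hf1, hf2⟩
    exact pdeg_of ι hι (k + 2) 0 f F (by omega) hf2 (h5 G N D f hf (k + 2 + 1))
  · rintro F ⟨f, hf, hf1, hf2⟩ q
    exact ⟨f q, hf1 q, (hf2 q).symm⟩
  · rintro F ⟨f, hf, hf1, hf2⟩ r
    have hr := (h4 G N D).2.2.2.1 r f hf
    refine ⟨⟨_, hr, fun q => hf1 _, fun q => hf2 _⟩, ?_⟩
    rw [hμ _ _ hr (fun q => hf1 _) (fun q => hf2 _), hμ F f hf hf1 hf2, h2 G N D lam hl r f hf,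
      ← zpow_natCast, ← zpow_natCast, ← zpow_mul, ← zpow_mul, mul_comm]
  · rintro v ⟨z, hz, hzv⟩
    have hg := gpp_mem (N := N) (D := D) 1
      (hle ((⊤ : Subgroup G).lowerCentralSeries_antitone (Nat.succ_le_succ (Nat.zero_le k)) hz))
      (one_mem _) (one_mem _)
    have hz' : ∀ q, ι ((fun q => v ^ (ev D 1 q)) q) = pq G (k + 2) (gpp N D 1 z 1 1 q) := by
      intro q
      rw [gpp_z h6 hz, map_zpow, hzv]
    have hmem : ∀ q, gpp N D 1 z 1 1 q ∈ lcs G (k + 1) := by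
      intro q
      have h9 : pq G (k + 2) (gpp N D 1 z 1 1 q * (z ^ (ev D 1 q))⁻¹) = 1 := by
        rw [map_mul, map_inv, gpp_z h6 hz, map_zpow, mul_inv_cancel]
      rw [pq_eq_one] at h9
      have h10 : gpp N D 1 z 1 1 q * (z ^ (ev D 1 q))⁻¹ ∈ lcs G (k + 1) :=
        (⊤ : Subgroup G).lowerCentralSeries_antitone (Nat.le_succ (k + 1)) h9
      have h11 := mul_mem h10 (zpow_mem hz (ev D 1 q))
      rwa [inv_mul_cancel_right] at h11
    refine ⟨⟨_, hg, hmem, hz'⟩, ?_⟩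
    rw [hμ _ _ hg hmem hz']
    exact ch_triv h1 h6 h7 hl hM hle hz

/-- the group structure of the center -/
@[reducible] def cgc (Q : Type) [Group Q] : CommGroup (Subgroup.center Q) :=
  { (inferInstance : Group (Subgroup.center Q)) with
    mul_comm := fun a b => Subtype.ext ((Subgroup.mem_center_iff.1 b.2) a.1) }

theorem main (h1 : S_LT1) (h2 : S_LT3) (h3 : S_TOR) (h4 : S_PPn) (h5 : S_PPbp) (h6 : S_LCS)
    (h7 : S_EV) : S_LT5 := by
  intro G _ _ _ N D lam hl i hi hM0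
  obtain ⟨k, rfl⟩ : ∃ k, i = k + 1 := ⟨i - 1, by omega⟩
  obtain ⟨M0, hM0, hMM⟩ := hM0
  letI := cgc (G ⧸ lcs G (k + 2))
  refine core h1 h2 h3 h4 h5 h6 h7 hl hM0 hMM (V := Subgroup.center (G ⧸ lcs G (k + 2)))
    (Subgroup.subtype _) (Subgroup.subtype_injective _) ?_
  intro z hz
  refine ⟨⟨pq G (k + 2) z, ?_⟩, rfl⟩
  rw [Subgroup.mem_center_iff]
  intro g
  obtain ⟨g, rfl⟩ := QuotientGroup.mk'_surjective _ g
  exact (commute_pq h6 hz g).symm

end Pool.Agent.W540.PR.LT5
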